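import Pool.Agent.Helper71.HN.SheetH
import Pool.Agent.Helper77.JN.FINU

/-!
Project HN, row FINH: the final theorem for a finitely generated group of algebraic numbers.
-/

set_option autoImplicit false

namespace Pool.Agent.Helper41.HN

open Polynomial Filter Finset Pool.Agent.Helper70.SUB Pool.Agent.Helper77.SUBK
  Pool.Agent.Helper70.SUBL Pool.Agent.Helper70.SUBW Pool.Agent.Helper71.JN
  Pool.Agent.Helper71.HN Pool.Agent.Helper77.JN

/-- (FINH) -/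
theorem FINH (hT1H : ST_T1H) (hSVB : ST_SVB) : ST_FINH := by
  classical
  intro Γ t d κ θ B hfg halg hd hd3 hθ0 hθ
  obtain ⟨M, iF, iN, iG, S, φ, ζ, hS, hζ, hΓ⟩ := Helper45.SUBK.field_exists hSVB Γ hfg halg
  obtain ⟨h1, h2, h3, h4, h5, h6, h7, h8, h9, h10, h11, h12⟩ := hSVB M
  obtain ⟨g, hg⟩ := hd
  obtain ⟨C, hC0, hC⟩ := hT1H M S φ t g κ θ B hS (by omega) hθ0 hθ
  have hs : ∀ (H H' : ℝ) (z : ℂ), Sparse Γ t H H' z → ∃ (c : Fin t → ℤ) (a : Fin t → M),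
      (∀ i, SV S (a i)) ∧ (∀ i, |(c i : ℝ)| ≤ H) ∧ φ (∑ i, (c i : M) * a i) = z ∧
      HBZ φ H' (∑ i, (c i : M) * a i) := by
    intro H H' z hz
    obtain ⟨⟨c, γ, hγ, hc, hzs⟩, hD, hcj⟩ := hz
    choose ρ hρS hρ using fun i => hΓ (γ i) (hγ i)
    have e : φ (∑ i, (c i : M) * ρ i ^ (6 : ℤ)) = z := by
      rw [map_sum, hzs]
      refine Finset.sum_congr rfl fun i _ => ?_
      rw [map_mul, map_intCast, map_zpow₀, ← hρ i]
      norm_cast
    exact ⟨c, fun i => ρ i ^ (6 : ℤ), fun i => h8 S _ _ (hρS i), hc, e, hbz_of φ e hD hcj⟩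
  refine ⟨C, C, hC0, hC0, ?_⟩
  intro F hF hsep x y hxy H hH p q hp hq hq0 hsm
  obtain ⟨c, a, ha, hc, hpa, hpB⟩ := hs _ _ _ hp
  obtain ⟨e, b, hb, he, hqb, hqB⟩ := hs _ _ _ hq
  have key := hC F x y H c e a b (by rw [hF, hg]) hsep hxy hH ha hb hc he hpB hqB ?_ ?_
  · linarith
  · intro h0
    exact hq0 (by rw [← hqb, h0, map_zero])
  · rw [map_div₀, hpa, hqb, ← hg]
    exact hsm

end Pool.Agent.Helper41.HN
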